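import Mathlib

set_option autoImplicit false

/-! The second of the three stated congruences for
`∑ binom(-1/2,k) binom(-1/3,k) / (-4)^k` fails at the prime `7 = 2^2 + 3 * 1^2`. -/

namespace Pool.Agent.Results.MP_7d0087_nt.Disproof

open Finset

/-- The generalized binomial coefficient `a (a-1) ⋯ (a-k+1) / k!`. -/
def bin (a : ℚ) (k : ℕ) : ℚ := (∏ i ∈ range k, (a - i)) / (k.factorial : ℚ)

/-- `S_p = ∑_{k=0}^{p-1} binom(-1/2,k) binom(-1/3,k) / (-4)^k`. -/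
def S (p : ℕ) : ℚ := ∑ k ∈ range p, bin (-1 / 2) k * bin (-1 / 3) k / (-4) ^ k

/-- `u ≡ v (mod p^m)` in the ring of rationals with denominator prime to `p`. -/
def Cong (p m : ℕ) (u v : ℚ) : Prop := ¬ p ∣ ((u - v) / (p : ℚ) ^ m).den

/-- The Legendre symbol `(p/5)`. -/
def leg5 (p : ℕ) : ℚ := (jacobiSym (p : ℤ) 5 : ℤ)

/-- The three assertions of Q1 for one prime `p > 5`; `A / B ≡ -1` or `-2 (mod 5)` is written
as `5 ∣ A + B` or `5 ∣ A + 2 B`. -/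
def Q1at (p : ℕ) : Prop :=
  (p % 3 = 1 → ∀ A B : ℤ, (p : ℤ) = A ^ 2 + 3 * B ^ 2 → A % 3 = 1 → 5 ∣ A * B →
    Cong p 2 (S p) (leg5 p * (2 * A - p / (2 * A)))) ∧
  (p % 3 = 1 → ∀ A B : ℤ, (p : ℤ) = A ^ 2 + 3 * B ^ 2 → A % 3 = 1 → ¬ 5 ∣ A * B →
    (5 ∣ A + B ∨ 5 ∣ A + 2 * B) →
    Cong p 2 (S p) (leg5 p * (A + 3 * B - p / (A + 3 * B)))) ∧
  (p % 3 = 2 → Cong p 1 (S p) 0)

theorem dvd7 : 7 ∣ ((S 7 - (-1) * (1 - 7 / 1)) / (7 : ℚ) ^ 2).den := by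
  decide +kernel

theorem leg57 : leg5 7 = -1 := by
  unfold leg5
  norm_num

theorem result : ¬ ∀ p : ℕ, p.Prime → 5 < p → Q1at p := by
  intro h
  have h1 := ((h 7 (by norm_num) (by norm_num))).2.1 (by norm_num) (-2) 1 (by norm_num)
    (by norm_num) (by norm_num) (by norm_num)
  apply h1
  rw [leg57]
  have e : (-1 : ℚ) * (((-2 : ℤ) : ℚ) + 3 * ((1 : ℤ) : ℚ) -
      ((7 : ℕ) : ℚ) / (((-2 : ℤ) : ℚ) + 3 * ((1 : ℤ) : ℚ))) = (-1) * (1 - 7 / 1) := by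
    norm_num
  rw [e]
  exact_mod_cast dvd7

end Pool.Agent.Results.MP_7d0087_nt.Disproof
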